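import Pool.Agent.Helper47.KN.Goals
import Pool.Agent.Helper62.GR.FPI

/-!
# Project KN (MP_08df5f_al), packet CH: finitely presented ascending HNN extensions
-/

set_option autoImplicit false

namespace Pool.Agent.Helper81.KN

open Pool.Agent.Helper62.GR Pool.Agent.Helper62.WB Pool.Agent.Helper47.KN

section Gen

variable {ι : Type}

/-- the homomorphism of the free group on `ι` and a stable letter -/
def jl {Q : Type} [Group Q] (t : Q) (j : FreeGroup ι →* Q) : FreeGroup (Option ι) →* Q :=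
  FreeGroup.lift (fun o : Option ι => o.elim t (fun i => j (FreeGroup.of i)))

theorem jl_none {Q : Type} [Group Q] (t : Q) (j : FreeGroup ι →* Q) :
    jl t j (FreeGroup.of none) = t := by
  unfold jl
  rw [FreeGroup.lift_apply_of]
  rfl

theorem jl_of {Q : Type} [Group Q] (t : Q) (j : FreeGroup ι →* Q) (i : ι) :
    jl t j (FreeGroup.of (some i)) = j (FreeGroup.of i) := by
  unfold jl
  rw [FreeGroup.lift_apply_of]
  rfl

theorem jl_some {Q : Type} [Group Q] (t : Q) (j : FreeGroup ι →* Q) (w : FreeGroup ι) :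
    jl t j (FreeGroup.map some w) = j w := by
  have h : (jl t j).comp (FreeGroup.map some) = j := by
    ext i
    rw [MonoidHom.comp_apply, FreeGroup.map.of, jl_of]
  exact DFunLike.congr_fun h w

theorem conj_pow {Q : Type} [Group Q] (t : Q) (j : FreeGroup ι →* Q)
    (α : FreeGroup ι →* FreeGroup ι) (h : ∀ w, t * j w * t⁻¹ = j (α w)) (n : ℕ) :
    ∀ w, t ^ n * j w = j (α^[n] w) * t ^ n := by
  induction n with
  | zero =>
    intro w
    rw [pow_zero, one_mul, mul_one]
    rfl
  | succ n ih =>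
    intro w
    have h1 : t * j w = j (α w) * t := by rw [← h w, inv_mul_cancel_right]
    rw [pow_succ, mul_assoc, h1, ← mul_assoc, ih, mul_assoc, Function.iterate_succ_apply]

/-- the normal form, uniformly in the group -/
theorem nform (α : FreeGroup ι →* FreeGroup ι) (z : FreeGroup (Option ι)) :
    ∃ (a b : ℕ) (w : FreeGroup ι), ∀ (Q : Type) [Group Q] (t : Q) (j : FreeGroup ι →* Q),
      (∀ w, t * j w * t⁻¹ = j (α w)) → jl t j z = (t ^ a)⁻¹ * j w * t ^ b := by
  induction z using FreeGroup.induction_on with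
  | C1 =>
    refine ⟨0, 0, 1, fun Q _ t j _ => ?_⟩
    rw [map_one, map_one, pow_zero, inv_one, mul_one, mul_one]
  | of o =>
    cases o with
    | none =>
      refine ⟨0, 1, 1, fun Q _ t j _ => ?_⟩
      rw [map_one, pow_zero, inv_one, mul_one, one_mul, pow_one]
      exact jl_none t j
    | some i =>
      refine ⟨0, 0, FreeGroup.of i, fun Q _ t j _ => ?_⟩
      rw [pow_zero, inv_one, mul_one, one_mul]
      exact jl_of t j i
  | inv_of o ih =>
    obtain ⟨a, b, w, h⟩ := ih
    refine ⟨b, a, w⁻¹, fun Q _ t j hj => ?_⟩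
    rw [map_inv, h Q t j hj, map_inv, mul_inv_rev, mul_inv_rev, inv_inv, mul_assoc]
  | mul z z' ih ih' =>
    obtain ⟨a, b, w, h⟩ := ih
    obtain ⟨a', b', w', h'⟩ := ih'
    refine ⟨a + (a' - b), (b - a') + b', α^[a' - b] w * α^[b - a'] w', fun Q _ t j hj => ?_⟩
    rw [map_mul, h Q t j hj, h' Q t j hj, map_mul]
    have e1 := conj_pow t j α hj (a' - b) w
    have e2 := conj_pow t j α hj (b - a') w'
    have e3 : t ^ b * (t ^ a')⁻¹ = (t ^ (a' - b))⁻¹ * t ^ (b - a') := by
      have e4 : t ^ (a' - b) * t ^ b = t ^ (b - a') * t ^ a' := by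
        rw [← pow_add, ← pow_add]
        congr 1
        omega
      rw [eq_inv_mul_iff_mul_eq, ← mul_assoc, e4, mul_inv_cancel_right]
    calc (t ^ a)⁻¹ * j w * t ^ b * ((t ^ a')⁻¹ * j w' * t ^ b')
        = (t ^ a)⁻¹ * j w * (t ^ b * (t ^ a')⁻¹) * (j w' * t ^ b') := by group
      _ = (t ^ a)⁻¹ * (j w * (t ^ (a' - b))⁻¹) * (t ^ (b - a') * j w') * t ^ b' := by
          rw [e3]
          group
      _ = (t ^ a)⁻¹ * ((t ^ (a' - b))⁻¹ * j (α^[a' - b] w)) * (j (α^[b - a'] w') * t ^ (b - a'))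
            * t ^ b' := by
          rw [e2]
          congr 3
          rw [eq_inv_mul_iff_mul_eq, ← mul_assoc, e1, mul_inv_cancel_right]
      _ = (t ^ (a + (a' - b)))⁻¹ * (j (α^[a' - b] w) * j (α^[b - a'] w')) *
            t ^ (b - a' + b') := by
          rw [pow_add, pow_add, pow_mul_comm t a, mul_inv_rev]
          group

end Gen

section Hat

variable {ι : Type} (α : FreeGroup ι →* FreeGroup ι) (K : Subgroup (FreeGroup ι))

theorem stab_iter (hα : ∀ w ∈ K, α w ∈ K) (n : ℕ) : ∀ w ∈ K, α^[n] w ∈ K := by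
  induction n with
  | zero => exact fun w hw => hw
  | succ n ih =>
    intro w hw
    rw [Function.iterate_succ_apply]
    exact ih _ (hα w hw)

/-- the words which get into `K` after some applications of `α` -/
def hat (hα : ∀ w ∈ K, α w ∈ K) : Subgroup (FreeGroup ι) where
  carrier := {w | ∃ m, α^[m] w ∈ K}
  one_mem' := ⟨0, K.one_mem⟩
  mul_mem' := by
    rintro a b ⟨m, hm⟩ ⟨n, hn⟩
    refine ⟨m + n, ?_⟩
    rw [iterate_map_mul]
    refine K.mul_mem ?_ ?_
    · rw [add_comm, Function.iterate_add_apply]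
      exact stab_iter α K hα n _ hm
    · rw [Function.iterate_add_apply]
      exact stab_iter α K hα m _ hn
  inv_mem' := by
    rintro a ⟨m, hm⟩
    refine ⟨m, ?_⟩
    rw [iterate_map_inv]
    exact K.inv_mem hm

theorem mem_hat (hα : ∀ w ∈ K, α w ∈ K) (w : FreeGroup ι) :
    w ∈ hat α K hα ↔ ∃ m, α^[m] w ∈ K := Iff.rfl

theorem hat_normal (hα : ∀ w ∈ K, α w ∈ K) (hK : K.Normal) : (hat α K hα).Normal := by
  refine ⟨?_⟩
  rintro w ⟨m, hm⟩ g
  refine ⟨m, ?_⟩
  rw [iterate_map_mul, iterate_map_mul, iterate_map_inv]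
  exact hK.conj_mem _ hm _

theorem hat_le (hα : ∀ w ∈ K, α w ∈ K) : hat α K hα ≤ (hat α K hα).comap α := by
  rintro w ⟨m, hm⟩
  refine ⟨m, ?_⟩
  rw [← Function.iterate_succ_apply, Function.iterate_succ_apply']
  exact hα _ hm

theorem hat_of (hα : ∀ w ∈ K, α w ∈ K) {w : FreeGroup ι} (h : α w ∈ hat α K hα) :
    w ∈ hat α K hα := by
  obtain ⟨m, hm⟩ := h
  exact ⟨m + 1, by rwa [Function.iterate_succ_apply]⟩

end Hat

theorem t_conj' {Γ : Type} [Group Γ] (σ : Γ →* Γ) (hσ : Function.Injective σ) (g : Γ) :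
    (HNNExtension.t : Asc σ hσ) * HNNExtension.of g * HNNExtension.t⁻¹ =
      HNNExtension.of (σ g) := by
  have h := HNNExtension.equiv_eq_conj (φ := ascEquiv σ hσ) ⟨g, Subgroup.mem_top g⟩
  rw [← h]
  rfl

/-- The heart: an overgroup of the quotient by `hat`, with a stable letter. -/
theorem exists_k {ι : Type} (α : FreeGroup ι →* FreeGroup ι) (K : Subgroup (FreeGroup ι))
    (hα : ∀ w ∈ K, α w ∈ K) (hK : K.Normal) :
    ∃ (Q : Type) (_ : Group Q) (t : Q) (j : FreeGroup ι →* Q), (∀ w, t * j w * t⁻¹ = j (α w)) ∧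
      ∀ w, j w = 1 ↔ w ∈ hat α K hα := by
  have := hat_normal α K hα hK
  let σ : FreeGroup ι ⧸ hat α K hα →* FreeGroup ι ⧸ hat α K hα :=
    QuotientGroup.map (hat α K hα) (hat α K hα) α (hat_le α K hα)
  have hσ : Function.Injective σ := by
    rw [injective_iff_map_eq_one]
    intro x hx
    obtain ⟨w, rfl⟩ := QuotientGroup.mk_surjective x
    have h1 : ((α w : FreeGroup ι) : FreeGroup ι ⧸ hat α K hα) = 1 := hx
    rw [QuotientGroup.eq_one_iff] at h1 ⊢
    exact hat_of α K hα h1
  refine ⟨Asc σ hσ, inferInstance, HNNExtension.t,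
    HNNExtension.of.comp (QuotientGroup.mk' (hat α K hα)), ?_, ?_⟩
  · intro w
    exact t_conj' σ hσ _
  · intro w
    rw [MonoidHom.comp_apply]
    constructor
    · intro h
      have h1 : (QuotientGroup.mk' (hat α K hα)) w = 1 :=
        HNNExtension.of_injective (ascEquiv σ hσ) (h.trans (map_one _).symm)
      rwa [QuotientGroup.mk'_apply, QuotientGroup.eq_one_iff] at h1
    · intro h
      have h1 : (QuotientGroup.mk' (hat α K hα)) w = 1 := by
        rw [QuotientGroup.mk'_apply, QuotientGroup.eq_one_iff]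
        exact h
      rw [h1, map_one]

theorem exp_eq' {Γ : Type} [Group Γ] (σ : Γ →* Γ) (hσ : Function.Injective σ) (a b : ℕ) (g : Γ)
    (h : ((HNNExtension.t : Asc σ hσ) ^ a)⁻¹ * HNNExtension.of g * HNNExtension.t ^ b = 1) :
    a = b ∧ g = 1 := by
  let χ : Asc σ hσ →* Multiplicative ℤ :=
    HNNExtension.lift (1 : Γ →* Multiplicative ℤ) (Multiplicative.ofAdd 1) (by
      intro x
      simp)
  have h1 : χ HNNExtension.t = Multiplicative.ofAdd 1 := by
    change HNNExtension.lift _ _ _ HNNExtension.t = _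
    rw [HNNExtension.lift_t]
  have h2 : χ (HNNExtension.of g) = 1 := by
    change HNNExtension.lift _ _ _ (HNNExtension.of g) = _
    rw [HNNExtension.lift_of]
    rfl
  have h3 := congrArg χ h
  rw [map_mul, map_mul, map_inv, map_pow, map_pow, h1, h2, map_one χ, mul_one,
    inv_mul_eq_one, ← ofAdd_nsmul, ← ofAdd_nsmul] at h3
  have h4 := Multiplicative.ofAdd.injective h3
  have h5 : a = b := by simpa using h4
  refine ⟨h5, ?_⟩
  subst h5
  have h6 : (HNNExtension.of g : Asc σ hσ) = 1 := by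
    have h7 := inv_mul_eq_iff_eq_mul.1 ((mul_assoc _ _ _).symm.trans h)
    rw [mul_one] at h7
    exact mul_eq_right.1 h7
  exact HNNExtension.of_injective (ascEquiv σ hσ) (h6.trans (map_one _).symm)

theorem t : K_CH := by
  intro ι _ Γ _ π hπ σ hσ α hα K hKn hmono hker hex hst hFP
  classical
  -- the presentation
  let j0 : FreeGroup ι →* Asc σ hσ := HNNExtension.of.comp π
  let p : FreeGroup (Option ι) →* Asc σ hσ := jl HNNExtension.t j0
  have hj0 : ∀ w, (HNNExtension.t : Asc σ hσ) * j0 w * HNNExtension.t⁻¹ = j0 (α w) := by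
    intro w
    change (HNNExtension.t : Asc σ hσ) * HNNExtension.of (π w) * HNNExtension.t⁻¹
      = HNNExtension.of (π (α w))
    rw [hα]
    exact t_conj' σ hσ _
  have hp : Function.Surjective p := by
    intro x
    induction x using HNNExtension.induction_on with
    | of g =>
      obtain ⟨w, rfl⟩ := hπ g
      exact ⟨FreeGroup.map some w, jl_some _ _ w⟩
    | t => exact ⟨FreeGroup.of none, jl_none _ _⟩
    | mul x y hx hy =>
      obtain ⟨a, rfl⟩ := hx
      obtain ⟨b, rfl⟩ := hy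
      exact ⟨a * b, map_mul _ _ _⟩
    | inv x hx =>
      obtain ⟨a, rfl⟩ := hx
      exact ⟨a⁻¹, map_inv _ _⟩
  obtain ⟨R, hR⟩ := fpi (Asc σ hσ) hFP (Option ι) p hp
  choose Q iQ tk jk h1 h2 using fun k => exists_k α (K k) (hst k) (hKn k)
  -- every element of the kernel dies at some stage
  have hdie : ∀ z ∈ p.ker, ∃ k0, ∀ k, k0 ≤ k → jl (tk k) (jk k) z = 1 := by
    intro z hz
    obtain ⟨a, b, w, hw⟩ := nform α z
    have e1 := hw (Asc σ hσ) HNNExtension.t j0 hj0
    have e2 : jl HNNExtension.t j0 z = 1 := hz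
    rw [e2] at e1
    -- `a = b` is needed too
    have e3 : a = b ∧ π w = 1 := exp_eq' σ hσ a b (π w) e1.symm
    obtain ⟨rfl, e4⟩ := e3
    obtain ⟨k0, hk0⟩ := hex w e4
    refine ⟨k0, fun k hk => ?_⟩
    have e5 : jk k w = 1 := (h2 k w).2 ⟨0, hmono hk hk0⟩
    rw [hw (Q k) (tk k) (jk k) (h1 k), e5, mul_one, inv_mul_cancel]
  choose! kk hkk using hdie
  set k := R.sup kk with hk
  refine ⟨k, fun w hw => ?_⟩
  have hle : p.ker ≤ (jl (tk k) (jk k)).ker := by
    rw [hR]
    apply Subgroup.normalClosure_le_normal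
    intro r hr
    have hr' : r ∈ p.ker := by
      rw [hR]
      exact Subgroup.subset_normalClosure hr
    exact hkk r hr' k (Finset.le_sup (f := kk) (Finset.mem_coe.1 hr))
  have hw' : FreeGroup.map some w ∈ p.ker := by
    rw [MonoidHom.mem_ker]
    change jl _ j0 (FreeGroup.map some w) = 1
    rw [jl_some]
    change HNNExtension.of (π w) = 1
    rw [MonoidHom.mem_ker.1 hw, map_one]
  have h3 := hle hw'
  rw [MonoidHom.mem_ker, jl_some] at h3
  exact (h2 k w).1 h3

end Pool.Agent.Helper81.KN
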