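import Pool.Agent.Helper70.KN.Goals4

/-! Packet KN-NU3 (MP_20ee5e_ag). -/

set_option autoImplicit false

namespace Pool.Agent.Helper81.KN.NU3

open Pool.Agent.Helper70.KN

theorem t (hKP : S_KP) : S_NU3 := by
  obtain ⟨h0, h1, h2⟩ := hKP 4 (by norm_num)
  refine ⟨166 / 100, 11 / 15, by norm_num, ?_, by norm_num, by norm_num⟩
  intro σ hσ
  rcases hσ.eq_or_lt with rfl | hpos
  · rw [h0]
    norm_num
  · rcases le_total σ 2 with h | h
    · rw [h1 σ hpos h, le_div_iff₀ hpos]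
      have h3 : 0 ≤ (38375 / 100000 : ℝ) - σ / 16 := by linarith
      have h4 := mul_nonneg (sq_nonneg (σ - 93 / 100)) h3
      have h5 : 0 ≤ 34 / 100 - 23 / 30 * σ + σ ^ 2 / 2 - σ ^ 3 / 16 := by nlinarith
      nlinarith [mul_nonneg hpos.le h5]
    · rw [h2 σ h, le_div_iff₀ hpos]
      nlinarith [sq_nonneg (σ - 113 / 100)]

end Pool.Agent.Helper81.KN.NU3
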